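import Pool.Agent.TH755.BL.Law
import Pool.Agent.TH93.LN.Lower

/-!
# Nondeterministic exponential time in the linear level, by an adversary who controls most of the
coins
-/

set_option autoImplicit false

namespace Pool.Agent.TH755.BL

open Pool.Agent.NPC Pool.Agent.H620R2.Gauge Pool.Agent.H622R2.Exp Finset MeasureTheory Filter
open Pool.Agent.W900.BC Pool.Agent.TH755.BE Pool.Agent.TH93.LN
open Pool.Agent.TH93.LN.Stg (IsC cd cd_inj)

/-- every algorithm occurs infinitely often -/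
theorem exists_often : ∃ u : ℕ → Alg × ℕ, ∀ (g : Alg × ℕ) (N : ℕ), ∃ e, N ≤ e ∧ u e = g := by
  obtain ⟨al, hal⟩ := exists_alg
  have h2 : Countable Alg := hal.countable
  have h3 : Nonempty (Alg × ℕ) := ⟨(al 0, 0)⟩
  obtain ⟨u, hu⟩ := exists_surjective_nat (Alg × ℕ)
  refine ⟨fun e => u (Nat.unpair e).1, fun g N => ?_⟩
  obtain ⟨i, hi⟩ := hu g
  refine ⟨Nat.pair i N, Nat.right_le_pair i N, ?_⟩
  show u (Nat.unpair (Nat.pair i N)).1 = g
  rw [Nat.unpair_pair]
  exact hi

section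

variable (u : ℕ → Alg × ℕ) (cc : Alg → ℕ → ℕ)

/-- the size of a question -/
def sz (e n : ℕ) : ℕ := (cc (u e).1 (u e).2 + e + 2) * (n + 1)

theorem le_sz (e n : ℕ) : e + n + 2 ≤ sz u cc e n ∧ cc (u e).1 (u e).2 * (n + 1) ≤ sz u cc e n := by
  unfold sz
  constructor
  · nlinarith [Nat.zero_le (cc (u e).1 (u e).2 * (n + 1)), Nat.zero_le (e * n)]
  · exact Nat.mul_le_mul_right _ (by omega)

/-- the questions -/
def Qs (e : ℕ) (x : List Bool) (A : Oracle) : Prop :=
  ∃ w : List Bool, w.length ≤ 2 ^ ((u e).2 * (x.length + 1)) ∧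
    (u e).1.out A (pairBits w x) = some [true]

variable (hcc : ∀ (M : Alg) (c : ℕ) (x : List Bool) (A : Oracle),
  (∃ w : List Bool, w.length ≤ 2 ^ (c * (x.length + 1)) ∧
      M.out A (pairBits w x) = some [true]) →
      ∃ U : Finset (List Bool), U.card ≤ 2 ^ (cc M c * (x.length + 1)) ∧
        ∀ A' : Oracle, (∀ u ∈ U, A' u = A u) →
          ∃ w : List Bool, w.length ≤ 2 ^ (c * (x.length + 1)) ∧
            M.out A' (pairBits w x) = some [true]) (K : ℕ)

/-- the jobs -/
noncomputable def jj : LJ where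
  hh e n := 6 * sz u cc e n
  R := Rk K
  Q := Qs u
  p e n := 2 ^ (cc (u e).1 (u e).2 * (n + 1))
  cert e x A h := hcc (u e).1 (u e).2 x A h

theorem len_eq (e n : ℕ) : (jj u cc hcc K).len e n =
    (K + 1) * (24 * sz u cc e n + n + e + 3) + 1 := by
  unfold LJ.len jj
  simp only [eval_Rk]
  ring

theorem len_le {e n e' n' : ℕ} (h : (jj u cc hcc K).len e' n' ≤ (jj u cc hcc K).len e n) :
    sz u cc e' n' ≤ 2 * sz u cc e n := by
  rw [len_eq, len_eq] at h
  have h1 : (K + 1) * (24 * sz u cc e' n' + n' + e' + 3) ≤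
      (K + 1) * (24 * sz u cc e n + n + e + 3) := by omega
  have h2 := Nat.le_of_mul_le_mul_left h1 (by omega)
  have h3 := (le_sz u cc e n).1
  omega

theorem sum_small (G : Finset (ℕ × List Bool)) (s : ℕ) (h : ∀ t ∈ G, sz u cc t.1 t.2.length ≤ s) :
    ∑ t ∈ G, (jj u cc hcc K).p t.1 t.2.length ≤ 2 ^ s * 2 ^ s := by
  classical
  have h1 : ∀ t ∈ G, (jj u cc hcc K).p t.1 t.2.length ≤ 2 ^ s := by
    intro t ht
    exact Nat.pow_le_pow_right (by norm_num)
      ((le_sz u cc t.1 t.2.length).2.trans (h t ht))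
  refine (sum_le_sum h1).trans ?_
  rw [sum_const, smul_eq_mul]
  refine Nat.mul_le_mul_right _ ?_
  calc G.card ≤ ((range (2 ^ s)).image str).card := by
        refine card_le_card_of_injOn (fun t => List.replicate t.1 true ++ false :: t.2) ?_ ?_
        · intro t ht
          rw [mem_coe, mem_image]
          refine ⟨idx (List.replicate t.1 true ++ false :: t.2), ?_, str_idx _⟩
          rw [mem_range]
          have h4 := idx_lt (List.replicate t.1 true ++ false :: t.2)
          have h5 : (List.replicate t.1 true ++ false :: t.2).length + 1 ≤ s := by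
            rw [List.length_append, List.length_cons, List.length_replicate]
            have h6 := h t ht
            have h7 := (le_sz u cc t.1 t.2.length).1
            omega
          have h6 : 2 ^ ((List.replicate t.1 true ++ false :: t.2).length + 1) ≤ 2 ^ s :=
            Nat.pow_le_pow_right (by norm_num) h5
          omega
        · intro t _ t' _ h
          have h1 := ones_inj _ _ h
          exact Prod.ext h1.1 h1.2
    _ ≤ 2 ^ s := card_image_le.trans (by rw [card_range])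

theorem card_F_le (l : ℕ) (A : Oracle) (s : ℕ)
    (h : ∀ e n, (jj u cc hcc K).len e n ≤ l → sz u cc e n ≤ s) :
    ((jj u cc hcc K).F l A).card ≤ 2 ^ s * 2 ^ s := by
  classical
  refine ((jj u cc hcc K).card_F l A).trans ?_
  rw [← sum_biUnion]
  · refine sum_small u cc hcc K _ s fun t ht => ?_
    rw [mem_biUnion] at ht
    obtain ⟨j, hj, ht⟩ := ht
    rw [LJ.mem_T] at ht
    rw [mem_range] at hj
    exact h _ _ (by omega)
  · intro i _ j _ hij
    rw [Function.onFun, disjoint_left]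
    intro t h1 h2
    rw [LJ.mem_T] at h1 h2
    exact hij (h1.symm.trans h2)

theorem card_F_lt {l : ℕ} (A : Oracle) {t : ℕ × List Bool} (ht : t ∈ (jj u cc hcc K).T l) :
    ((jj u cc hcc K).F l A).card < 2 ^ ((jj u cc hcc K).hh t.1 t.2.length) := by
  rw [LJ.mem_T] at ht
  refine lt_of_le_of_lt (card_F_le u cc hcc K l A (2 * sz u cc t.1 t.2.length) fun e n h => ?_) ?_
  · exact len_le u cc hcc K (h.trans ht.ge)
  · rw [← pow_add]
    refine Nat.pow_lt_pow_right (by norm_num) ?_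
    have h3 := (le_sz u cc t.1 t.2.length).1
    show _ < 6 * sz u cc t.1 t.2.length
    omega

theorem card_Y_le (hK : 1 ≤ K) (l : ℕ) (A : Oracle) :
    ((jj u cc hcc K).Y l A).card ≤ 2 ^ ((l + 1) / K + 2) := by
  classical
  set k := (l + 1) / K with hk
  have h1 : ((jj u cc hcc K).F l A).card ≤ 2 ^ k := by
    refine (card_F_le u cc hcc K l A ((l + 1) / (2 * K)) fun e n h => ?_).trans ?_
    · rw [len_eq] at h
      rw [Nat.le_div_iff_mul_le (by omega)]
      nlinarith [Nat.zero_le ((K + 1) * (n + e + 3)), Nat.zero_le (sz u cc e n * K)]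
    · rw [← pow_add]
      refine Nat.pow_le_pow_right (by norm_num) ?_
      rw [hk, Nat.le_div_iff_mul_le (by omega)]
      have := Nat.div_mul_le_self (l + 1) (2 * K)
      nlinarith
  have h2 : (((range (2 ^ (l + 1))).image str).filter (fun z => z.length = l ∧
      ∃ t, IsC (jj u cc hcc K).hh (jj u cc hcc K).R t z)).card ≤ 2 ^ (k + 1) := by
    have h3 := count_le K hK (2 ^ (l + 1))
    rw [Nat.log_pow (by norm_num)] at h3
    refine le_trans ?_ h3
    refine le_trans (card_le_card ?_) (card_image_le (f := str))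
    intro z hz
    rw [mem_filter, mem_image] at hz
    obtain ⟨⟨i, hi, rfl⟩, -, t, w, -, hw⟩ := hz
    rw [mem_image]
    exact ⟨i, mem_filter.2 ⟨hi, _, _, hw⟩, rfl⟩
  unfold LJ.Y
  refine (card_union_le _ _).trans ((Nat.add_le_add ((card_le_card (filter_subset _ _)).trans h1)
    h2).trans ?_)
  rw [pow_add, pow_add]
  have h5 : 1 ≤ 2 ^ k := Nat.one_le_two_pow
  omega

end

/-- the bound for the free coins -/
noncomputable def bb (δ : ℝ) (m₀ l : ℕ) : ℝ := if m₀ ≤ l then 2 * (2 : ℝ) ^ (-(δ * l)) else 1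

theorem bb_nonneg (δ : ℝ) (m₀ l : ℕ) : 0 ≤ bb δ m₀ l := by
  unfold bb
  split_ifs
  · positivity
  · exact zero_le_one

theorem bb_spec {ε : ℕ → ℝ} (hε : ∀ n, 0 ≤ ε n) {δ : ℝ} (hδ : 0 < δ) {m₀ : ℕ}
    (hm : ∀ m, m₀ ≤ m → 1 / 2 - ε m < (2 : ℝ) ^ (-(δ * m))) (l m : ℕ) (h : l ≤ m) :
    1 - 2 * ε m ≤ bb δ m₀ l := by
  unfold bb
  split_ifs with h1
  · have h2 := hm m (h1.trans h)
    have h3 : (2 : ℝ) ^ (-(δ * m)) ≤ (2 : ℝ) ^ (-(δ * l)) := by
      apply Real.rpow_le_rpow_of_exponent_le (by norm_num)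
      have h4 : (l : ℝ) ≤ m := by exact_mod_cast h
      have := mul_le_mul_of_nonneg_left h4 hδ.le
      linarith
    linarith
  · have := hε m
    linarith

theorem bb_sum {δ : ℝ} (hδ : 0 < δ) (m₀ K : ℕ) (hK : 2 / δ ≤ K) :
    Summable fun l : ℕ => ((2 ^ ((l + 1) / K + 2) : ℕ) : ℝ) * bb δ m₀ l := by
  rw [← summable_nat_add_iff m₀]
  have hg : Summable (fun l : ℕ => 16 * ((2 : ℝ) ^ (-(δ / 2))) ^ l) := by
    apply Summable.mul_left
    apply summable_geometric_of_lt_one (by positivity)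
    apply Real.rpow_lt_one_of_one_lt_of_neg (by norm_num)
    linarith
  have hK0 : (0 : ℝ) < K := lt_of_lt_of_le (by positivity) hK
  have hK1 : (1 : ℝ) ≤ K := by
    have : 0 < K := by exact_mod_cast hK0
    exact_mod_cast this
  have hKd : 1 / (K : ℝ) ≤ δ / 2 := by
    rw [div_le_iff₀ hδ] at hK
    rw [div_le_div_iff₀ hK0 (by norm_num)]
    linarith
  refine Summable.of_nonneg_of_le (fun l => ?_) (fun l => ?_) hg
  · exact mul_nonneg (by positivity) (bb_nonneg _ _ _)
  · unfold bb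
    rw [if_pos (by omega)]
    set j := l + m₀ with hj
    have h1 : ((2 ^ ((j + 1) / K + 2) : ℕ) : ℝ) ≤ (2 : ℝ) ^ (((j : ℝ) + 1) / K + 2) := by
      push_cast
      rw [← Real.rpow_natCast]
      apply Real.rpow_le_rpow_of_exponent_le (by norm_num)
      have h2 : (((j + 1) / K : ℕ) : ℝ) ≤ ((j + 1 : ℕ) : ℝ) / K := Nat.cast_div_le
      push_cast at h2 ⊢
      linarith
    calc ((2 ^ ((j + 1) / K + 2) : ℕ) : ℝ) * (2 * (2 : ℝ) ^ (-(δ * j)))
        ≤ (2 : ℝ) ^ (((j : ℝ) + 1) / K + 2) * (2 * (2 : ℝ) ^ (-(δ * j))) :=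
          mul_le_mul_of_nonneg_right h1 (by positivity)
      _ = (2 : ℝ) ^ (((j : ℝ) + 1) / K + 2 + (1 + -(δ * j))) := by
          rw [Real.rpow_add (by norm_num) (((j : ℝ) + 1) / K + 2), Real.rpow_add (by norm_num) 1,
            Real.rpow_one]
      _ ≤ (2 : ℝ) ^ (4 + -(δ / 2) * l) := by
          apply Real.rpow_le_rpow_of_exponent_le (by norm_num)
          have h3 : ((j : ℝ) + 1) / K = (j : ℝ) * (1 / K) + 1 / K := by ring
          have h4 : (j : ℝ) * (1 / K) ≤ j * (δ / 2) :=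
            mul_le_mul_of_nonneg_left hKd (Nat.cast_nonneg j)
          have h5 : 1 / (K : ℝ) ≤ 1 := by
            rw [div_le_one hK0]
            exact hK1
          have h6 : (l : ℝ) ≤ j := by
            rw [hj]
            push_cast
            have : (0 : ℝ) ≤ m₀ := Nat.cast_nonneg m₀
            linarith
          have h7 : δ / 2 * (l : ℝ) ≤ δ / 2 * j := mul_le_mul_of_nonneg_left h6 (by linarith)
          rw [h3]
          linarith
      _ = 16 * ((2 : ℝ) ^ (-(δ / 2))) ^ l := by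
          rw [Real.rpow_add (by norm_num), ← Real.rpow_natCast ((2 : ℝ) ^ (-(δ / 2))),
            ← Real.rpow_mul (by norm_num)]
          norm_num

/-- **The negative half.** -/
theorem neg {ε : ℕ → ℝ} (hε : ∀ n, 0 ≤ ε n)
    (h : ¬ ∀ δ : ℝ, 0 < δ → ∃ᶠ m : ℕ in atTop, (2 : ℝ) ^ (-(δ * m)) ≤ 1 / 2 - ε m) :
    ∃ μ : Measure Oracle, IsProbabilityMeasure μ ∧ Biased ε μ ∧
      ∀ᵐ A ∂μ, ∀ L, InNTime Lin A L → OneQ A L := by
  push Not at h
  obtain ⟨δ, hδ, h⟩ := h
  obtain ⟨m₀, hm⟩ := eventually_atTop.1 h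
  obtain ⟨u, hu⟩ := exists_often
  choose cc hcc using cert_lin
  obtain ⟨K, hK⟩ := exists_nat_ge (2 / δ)
  have hK1 : 1 ≤ K := by
    have h1 : (0 : ℝ) < K := lt_of_lt_of_le (by positivity) hK
    exact_mod_cast h1
  obtain ⟨μ, h1, h2, h3⟩ := (jj u cc hcc K).coded hε (bb_nonneg δ m₀) (bb_spec hε hδ hm)
    (card_Y_le u cc hcc K hK1) (bb_sum hδ m₀ K hK)
  refine ⟨μ, h1, h2, ?_⟩
  filter_upwards [h3] with A hA
  obtain ⟨l₀, hl₀⟩ := eventually_atTop.1 hA
  rintro L ⟨V, ⟨M, hM⟩, q, ⟨c, rfl⟩, hV⟩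
  obtain ⟨e, he0, he⟩ := hu (M, c) l₀
  set D := 6 * (cc (u e).1 (u e).2 + e + 2) with hD
  refine ⟨K, e, D, D, fun x => ?_⟩
  have hhx : (jj u cc hcc K).hh e x.length = D * x.length + D := by
    show 6 * sz u cc e x.length = _
    unfold sz
    rw [hD]
    ring
  set l := (jj u cc hcc K).len e x.length with hl
  have hll : l₀ ≤ l := by
    rw [hl]
    unfold LJ.len
    omega
  have ht : ((e, x) : ℕ × List Bool) ∈ (jj u cc hcc K).T l := (LJ.mem_T _).2 rfl
  have h6 := lt_of_le_of_lt ((jj u cc hcc K).count (hl₀ l hll) ht) (card_F_lt u cc hcc K A ht)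
  simp only at h6
  rw [hhx] at h6
  refine lt_of_eq_of_lt ?_ h6
  congr 1
  have hxL : x ∈ L ↔ (jj u cc hcc K).Q e x A := by
    show x ∈ L ↔ Qs u e x A
    rw [hV x]
    unfold Qs
    simp only [he, hM, Option.some.injEq, Polynomial.eval_mul, Polynomial.eval_C,
      Polynomial.eval_add, Polynomial.eval_X, Polynomial.eval_one]
  simp only [ask_eq, hxL]
  rfl

end Pool.Agent.TH755.BL
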