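import Pool.Agent.TH755.BL.Pos
import Pool.Agent.TH755.BL.Neg
import Pool.Agent.TH93.LN.Fin

/-!
# Classes given by the strings of linear length and subexponential advice
-/

set_option autoImplicit false

namespace Pool.Agent.TH755.BL

open Pool.Agent.NPC Pool.Agent.H620R2.Gauge Pool.Agent.H622R2.Exp Finset MeasureTheory Filter
open Pool.Agent.W900.BC Pool.Agent.TH93.LN
open Pool.Agent.TH707.EC (poly_le_two_pow_div)

/-- polynomials are subexponential -/
theorem poly_sub (p : Polynomial ℕ) {δ : ℝ} (hδ : 0 < δ) :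
    ∀ᶠ n : ℕ in atTop, ((p.eval n : ℕ) : ℝ) ≤ 2 ^ (δ * n) := by
  obtain ⟨E, hE⟩ := exists_nat_ge (1 / δ)
  have hE0 : (0 : ℝ) < E := lt_of_lt_of_le (by positivity) hE
  have hE1 : 1 ≤ E := by exact_mod_cast hE0
  filter_upwards [poly_le_two_pow_div p hE1] with n hn
  have h0 : p.eval n ≤ 2 ^ (n / E) := by omega
  have h1 : ((p.eval n : ℕ) : ℝ) ≤ ((2 ^ (n / E) : ℕ) : ℝ) := by exact_mod_cast h0
  refine h1.trans ?_
  push_cast
  rw [← Real.rpow_natCast]
  apply Real.rpow_le_rpow_of_exponent_le (by norm_num)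
  refine (Nat.cast_div_le).trans ?_
  rw [div_le_iff₀ hδ] at hE
  rw [div_le_iff₀ hE0]
  have h8 : (0 : ℝ) ≤ n := Nat.cast_nonneg n
  nlinarith

theorem loc0_sub {Ψ : ℕ → Oracle → List Bool → Prop} {A : Oracle} {L : Set (List Bool)}
    (h : Loc0 Ψ A L) : LocalSub (noAdv Ψ) A L := by
  obtain ⟨e, c, h⟩ := h
  refine ⟨e, c, fun _ => [], fun δ hδ => Filter.Eventually.of_forall fun n => ?_, fun x => ?_⟩
  · simp only [List.length_nil, Nat.cast_zero]
    positivity
  · unfold noAdv
    rw [unpair_pairBits]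
    exact h x

theorem nlin_sub {A : Oracle} {L : Set (List Bool)} (h : InNLinSpace A L) :
    LocalSub (noAdv PsiN0) A L := loc0_sub h.loc0

/-- all triples -/
theorem exists_triples : ∃ g : ℕ → Alg × ℕ × ℕ, Function.Surjective g := by
  obtain ⟨al, hal⟩ := exists_alg
  have h2 : Countable Alg := hal.countable
  have h3 : Nonempty (Alg × ℕ × ℕ) := ⟨(al 0, 0, 0)⟩
  exact exists_surjective_nat (Alg × ℕ × ℕ)

/-- a list of functionals for alternating quantifiers of linear length -/
noncomputable def PsiH (e : ℕ) (A : Oracle) (y : List Bool) : Prop :=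
  Quant ((exists_triples.choose e).2.1 * ((unpair y).1.length + 1))
    (fun z => ((exists_triples.choose e).1.out A z).getD []) (exists_triples.choose e).2.2 true y

theorem quant_congr {m : ℕ} {V V' : List Bool → List Bool} : ∀ (k : ℕ) (b : Bool) (y : List Bool),
    (∀ z, Arg m k y z → V z = V' z) → (Quant m V k b y ↔ Quant m V' k b y)
  | 0, _, y, h => by
    unfold Quant
    rw [h y rfl]
  | k + 1, true, y, h => by
    unfold Quant
    exact exists_congr fun w => and_congr_right fun hw =>
      quant_congr k false _ fun z hz => h z ⟨w, hw, hz⟩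
  | k + 1, false, y, h => by
    unfold Quant
    exact forall_congr' fun w => imp_congr_right fun hw =>
      quant_congr k true _ fun z hz => h z ⟨w, hw, hz⟩

theorem lh_sub {A : Oracle} {L : Set (List Bool)} (h : InLH A L) : LocalSub PsiH A L := by
  obtain ⟨M, V, h, p, c, k, h1, h2, h3, h4⟩ := h
  obtain ⟨e, he⟩ := exists_triples.choose_spec (M, c, k)
  refine ⟨e, c, h, fun δ hδ => ?_, fun x => ?_⟩
  · filter_upwards [poly_sub p hδ] with n hn
    refine le_trans ?_ hn
    exact_mod_cast h2 n
  · rw [h3 x]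
    unfold PsiH
    rw [he, unpair_pairBits]
    refine quant_congr k true _ fun z hz => ?_
    have h5 := h4 x z hz (fun q => decide (q.length ≤ c * (x.length + 1)) && A q) fun q hq => by
      simp only [decide_eq_true hq, Bool.true_and]
    simp only
    rw [h5, h1 z]
    rfl

end Pool.Agent.TH755.BL
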