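import Pool.Agent.TH755.BE.NegA
import Pool.Agent.TH93.LN.Stage

/-!
# Nondeterministic questions coded by an adversary who controls most of the coins
-/

set_option autoImplicit false

namespace Pool.Agent.TH755.BL

open Pool.Agent.NPC Pool.Agent.H620R2.Gauge Finset MeasureTheory Filter
open Pool.Agent.W900.BC Pool.Agent.TH755.BE
open Pool.Agent.TH93.LN.Stg (IsC cd cd_inj)

/-- a maximum -/
theorem exists_top {α : Type} (S : Set α) (hS : S.Nonempty) (f : α → ℕ) (b : ℕ)
    (hb : ∀ a ∈ S, f a ≤ b) : ∃ a ∈ S, ∀ a' ∈ S, f a' ≤ f a := by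
  obtain ⟨a₀, ha₀⟩ := hS
  have h1 : (f '' S).Nonempty := ⟨_, a₀, ha₀, rfl⟩
  have h2 : BddAbove (f '' S) := ⟨b, by rintro _ ⟨a, ha, rfl⟩; exact hb a ha⟩
  obtain ⟨a, ha, hm⟩ := Nat.sSup_mem h1 h2
  refine ⟨a, ha, fun a' ha' => ?_⟩
  rw [hm]
  exact le_csSup h2 ⟨a', ha', rfl⟩

/-- Questions with certificates. -/
structure LJ : Type where
  /-- the length of the windows -/
  hh : ℕ → ℕ → ℕ
  /-- the paddings -/
  R : ℕ → Polynomial ℕ
  /-- the questions -/
  Q : ℕ → List Bool → Oracle → Prop
  /-- the number of strings in the certificates -/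
  p : ℕ → ℕ → ℕ
  /-- the certificates -/
  cert : ∀ (e : ℕ) (x : List Bool) (A : Oracle), Q e x A → ∃ U : Finset (List Bool),
    U.card ≤ p e x.length ∧ ∀ A' : Oracle, (∀ u ∈ U, A' u = A u) → Q e x A'

variable (X : LJ)

/-- the length of the code strings -/
def LJ.len (e n : ℕ) : ℕ :=
  e + 2 + (X.R e).eval (4 * X.hh e n + n + 2) + (4 * X.hh e n + n + 2)

theorem length_code (R : ℕ → Polynomial ℕ) (e : ℕ) (z : List Bool) :
    (code R e z).length = e + 2 + (R e).eval z.length + z.length := by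
  unfold code
  rw [List.length_append, List.length_cons, List.length_append, List.length_cons,
    List.length_replicate, List.length_replicate]
  ring

theorem LJ.length_cd (t : ℕ × List Bool) (w : List Bool) (hw : w.length = 2 * X.hh t.1 t.2.length) :
    (cd X.R t w).length = X.len t.1 t.2.length := by
  have h1 : (true :: pairBits w t.2).length = 4 * X.hh t.1 t.2.length + t.2.length + 2 := by
    rw [List.length_cons, length_pairBits, hw]
    ring
  unfold cd LJ.len
  rw [length_code, h1]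

theorem LJ.isC_len {t : ℕ × List Bool} {z : List Bool} (h : IsC X.hh X.R t z) :
    z.length = X.len t.1 t.2.length := by
  obtain ⟨w, hw, rfl⟩ := h
  exact X.length_cd t w hw

open Classical in
/-- the questions coded by strings of length `l` -/
noncomputable def LJ.T (l : ℕ) : Finset (ℕ × List Bool) :=
  (range (l + 1) ×ˢ ((range (2 ^ (l + 1))).image str)).filter
    (fun t => X.len t.1 t.2.length = l)

theorem LJ.mem_T {l : ℕ} {t : ℕ × List Bool} : t ∈ X.T l ↔ X.len t.1 t.2.length = l := by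
  classical
  unfold LJ.T
  rw [mem_filter, mem_product, mem_range, mem_image]
  constructor
  · exact fun h => h.2
  · intro h
    refine ⟨⟨?_, idx t.2, ?_, str_idx _⟩, h⟩
    · unfold LJ.len at h
      omega
    · rw [mem_range]
      refine lt_of_lt_of_le (Nat.lt_of_succ_lt (idx_lt _))
        (Nat.pow_le_pow_right (by norm_num) ?_)
      unfold LJ.len at h
      omega

open Classical in
/-- the certificate -/
noncomputable def LJ.U (t : ℕ × List Bool) (A : Oracle) : Finset (List Bool) :=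
  if h : X.Q t.1 t.2 A then (X.cert t.1 t.2 A h).choose else ∅

theorem LJ.card_U (t : ℕ × List Bool) (A : Oracle) : (X.U t A).card ≤ X.p t.1 t.2.length := by
  unfold LJ.U
  split_ifs with h
  · exact (X.cert t.1 t.2 A h).choose_spec.1
  · simp

theorem LJ.U_spec {t : ℕ × List Bool} {A : Oracle} (h : X.Q t.1 t.2 A) (A' : Oracle)
    (hA : ∀ u ∈ X.U t A, A' u = A u) : X.Q t.1 t.2 A' := by
  unfold LJ.U at hA
  rw [dif_pos h] at hA
  exact (X.cert t.1 t.2 A h).choose_spec.2 A' hA

open Classical in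
/-- the number of questions with the answer yes -/
noncomputable def LJ.yes (l : ℕ) (B : Oracle) : ℕ := ((X.T l).filter fun t => X.Q t.1 t.2 B).card

/-- the possible oracles -/
def cons (l : ℕ) (A : Oracle) (s : Oracle × Finset (List Bool)) : Set Oracle :=
  {B | (∀ y : List Bool, y.length < l → B y = A y) ∧ ∀ y ∈ s.2, l ≤ y.length → B y = s.1 y}

theorem cons_nonempty (l : ℕ) (A : Oracle) (s : Oracle × Finset (List Bool)) :
    (cons l A s).Nonempty := by
  refine ⟨fun y => if y.length < l then A y else s.1 y, fun y hy => ?_, fun y _ hy => ?_⟩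
  · simp only [if_pos hy]
  · simp only [if_neg (not_lt.2 hy)]

theorem cons_congr {l : ℕ} {A A' : Oracle} (h : ∀ y : List Bool, y.length < l → A y = A' y)
    (s : Oracle × Finset (List Bool)) : cons l A s = cons l A' s := by
  ext B
  constructor
  · rintro ⟨h1, h2⟩
    exact ⟨fun y hy => (h1 y hy).trans (h y hy), h2⟩
  · rintro ⟨h1, h2⟩
    exact ⟨fun y hy => (h1 y hy).trans (h y hy).symm, h2⟩

theorem LJ.exists_best (l : ℕ) (S : Set Oracle) (hS : S.Nonempty) :
    ∃ B ∈ S, ∀ B' ∈ S, X.yes l B' ≤ X.yes l B := by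
  classical
  exact exists_top S hS (X.yes l) (X.T l).card fun B _ => card_le_card (filter_subset _ _)

open Classical in
/-- the best oracle -/
noncomputable def LJ.best (l : ℕ) (S : Set Oracle) : Oracle :=
  if h : S.Nonempty then (X.exists_best l S h).choose else fun _ => false

theorem LJ.best_spec (l : ℕ) {S : Set Oracle} (h : S.Nonempty) :
    X.best l S ∈ S ∧ ∀ B' ∈ S, X.yes l B' ≤ X.yes l (X.best l S) := by
  unfold LJ.best
  rw [dif_pos h]
  exact (X.exists_best l S h).choose_spec

open Classical in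
/-- the states: the oracle and the frozen strings -/
noncomputable def LJ.st : ℕ → Oracle → Oracle × Finset (List Bool)
  | 0, _ => (fun _ => false, ∅)
  | l + 1, A => (X.best l (cons l A (LJ.st l A)), (LJ.st l A).2 ∪
      (X.T l).biUnion fun t => X.U t (X.best l (cons l A (LJ.st l A))))

open Classical in
theorem LJ.st_succ (l : ℕ) (A : Oracle) : X.st (l + 1) A =
    (X.best l (cons l A (X.st l A)), (X.st l A).2 ∪
      (X.T l).biUnion fun t => X.U t (X.best l (cons l A (X.st l A)))) := rfl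

theorem LJ.st_congr : ∀ (l : ℕ) {A A' : Oracle}, (∀ y : List Bool, y.length < l → A y = A' y) →
    X.st (l + 1) A = X.st (l + 1) A'
  | 0, A, A', h => by
    simp only [LJ.st]
    rw [cons_congr h]
  | l + 1, A, A', h => by
    have h1 := LJ.st_congr l (A := A) (A' := A') fun y hy => h y (by omega)
    have h2 : cons (l + 1) A (X.st (l + 1) A) = cons (l + 1) A' (X.st (l + 1) A') := by
      rw [h1]
      exact cons_congr h _
    rw [X.st_succ (l + 1) A, X.st_succ (l + 1) A', h2, h1]

/-- the oracle at stage `l` -/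
noncomputable def LJ.B (l : ℕ) (A : Oracle) : Oracle := (X.st (l + 1) A).1

/-- the frozen strings at stage `l` -/
noncomputable def LJ.F (l : ℕ) (A : Oracle) : Finset (List Bool) := (X.st (l + 1) A).2

theorem LJ.B_mem (l : ℕ) (A : Oracle) : X.B l A ∈ cons l A (X.st l A) :=
  (X.best_spec l (cons_nonempty l A _)).1

theorem LJ.B_max (l : ℕ) (A : Oracle) : ∀ B' ∈ cons l A (X.st l A), X.yes l B' ≤ X.yes l (X.B l A) :=
  (X.best_spec l (cons_nonempty l A _)).2

open Classical in
theorem LJ.F_eq (l : ℕ) (A : Oracle) : X.F l A = (X.st l A).2 ∪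
    (X.T l).biUnion fun t => X.U t (X.B l A) := rfl

theorem LJ.F_mono {l l' : ℕ} (h : l ≤ l') (A : Oracle) : X.F l A ⊆ X.F l' A := by
  induction l', h using Nat.le_induction with
  | base => exact Subset.refl _
  | succ k _ ih =>
    refine ih.trans ?_
    rw [X.F_eq (k + 1)]
    exact subset_union_left

theorem LJ.B_step (l : ℕ) (A : Oracle) {y : List Bool} (hy : y ∈ X.F l A) (hl : l + 1 ≤ y.length) :
    X.B (l + 1) A y = X.B l A y :=
  (X.B_mem (l + 1) A).2 y hy hl

theorem LJ.B_eq {l l' : ℕ} (h : l ≤ l') (A : Oracle) {y : List Bool} (hy : y ∈ X.F l A)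
    (hl : l' ≤ y.length) : X.B l' A y = X.B l A y := by
  induction l', h using Nat.le_induction with
  | base => rfl
  | succ k hk ih =>
    rw [X.B_step k A (X.F_mono hk A hy) hl]
    exact ih (by omega)

open Classical in
/-- the strategy -/
noncomputable def LJ.adv (z : List Bool) (A : Oracle) : Bool :=
  if z ∈ X.F z.length A then X.B z.length A z else
    decide (∃ t, IsC X.hh X.R t z ∧ X.Q t.1 t.2 (X.B z.length A))

theorem LJ.adv_loc : Loc X.adv := by
  intro z A A' h
  unfold LJ.adv LJ.F LJ.B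
  rw [X.st_congr z.length h]

open Classical in
/-- the strings that should be controlled -/
noncomputable def LJ.Y (l : ℕ) (A : Oracle) : Finset (List Bool) :=
  (X.F l A).filter (fun y => l ≤ y.length) ∪
    ((range (2 ^ (l + 1))).image str).filter (fun z => z.length = l ∧ ∃ t, IsC X.hh X.R t z)

theorem LJ.Y_congr {l : ℕ} {A A' : Oracle} (h : ∀ y : List Bool, y.length < l → A y = A' y) :
    X.Y l A = X.Y l A' := by
  unfold LJ.Y LJ.F
  rw [X.st_congr l h]

theorem LJ.mem_Y_F {l : ℕ} {A : Oracle} {y : List Bool} (h1 : y ∈ X.F l A) (h2 : l ≤ y.length) :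
    y ∈ X.Y l A := by
  classical
  unfold LJ.Y
  rw [mem_union, mem_filter]
  exact Or.inl ⟨h1, h2⟩

theorem LJ.mem_Y_C {l : ℕ} (A : Oracle) {z : List Bool} {t : ℕ × List Bool}
    (h1 : IsC X.hh X.R t z) (h2 : z.length = l) : z ∈ X.Y l A := by
  classical
  unfold LJ.Y
  rw [mem_union, mem_filter (p := fun z => z.length = l ∧ ∃ t, IsC X.hh X.R t z), mem_image]
  refine Or.inr ⟨⟨idx z, ?_, str_idx _⟩, h2, t, h1⟩
  rw [mem_range, ← h2]
  exact Nat.lt_of_succ_lt (idx_lt z)

theorem LJ.mem_Y_len {l : ℕ} {A : Oracle} {y : List Bool} (hy : y ∈ X.Y l A) : l ≤ y.length := by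
  classical
  unfold LJ.Y at hy
  rw [mem_union, mem_filter, mem_filter] at hy
  rcases hy with h | h
  · exact h.2
  · exact h.2.1.ge

/-- the strategy is followed at stage `l` -/
def LJ.good (l : ℕ) (A : Oracle) : Prop := ∀ y ∈ X.Y l A, A y = X.adv y A

/-- the oracle agrees with the frozen values -/
theorem LJ.agree {l : ℕ} {A : Oracle} (h : X.good l A) {y : List Bool} (hy : y ∈ X.F l A) :
    A y = X.B l A y := by
  by_cases hl : l ≤ y.length
  · rw [h y (X.mem_Y_F hy hl)]
    unfold LJ.adv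
    rw [if_pos (X.F_mono hl A hy)]
    exact X.B_eq hl A hy le_rfl
  · exact ((X.B_mem l A).1 y (not_le.1 hl)).symm

/-- the answers are right -/
theorem LJ.answer {l : ℕ} {A : Oracle} (h : X.good l A) {t : ℕ × List Bool} (ht : t ∈ X.T l) :
    X.Q t.1 t.2 A ↔ X.Q t.1 t.2 (X.B l A) := by
  classical
  have hcons : A ∈ cons l A (X.st l A) := by
    refine ⟨fun _ _ => rfl, fun y hy hl => ?_⟩
    have h1 : y ∈ X.F l A := by
      rw [X.F_eq]
      exact mem_union_left _ hy
    rw [X.agree h h1]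
    exact (X.B_mem l A).2 y hy hl
  have hsub : ∀ t ∈ X.T l, X.Q t.1 t.2 (X.B l A) → X.Q t.1 t.2 A := by
    intro t ht hq
    refine X.U_spec hq A fun u hu => X.agree h ?_
    rw [X.F_eq]
    exact mem_union_right _ (mem_biUnion.2 ⟨t, ht, hu⟩)
  refine ⟨fun hq => ?_, hsub t ht⟩
  have hmax := X.B_max l A A hcons
  have h2 : (X.T l).filter (fun t => X.Q t.1 t.2 (X.B l A)) ⊆
      (X.T l).filter (fun t => X.Q t.1 t.2 A) := by
    intro s hs
    rw [mem_filter] at hs ⊢
    exact ⟨hs.1, hsub s hs.1 hs.2⟩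
  have h3 := eq_of_subset_of_card_le h2 hmax
  have h4 : t ∈ (X.T l).filter (fun t => X.Q t.1 t.2 A) := mem_filter.2 ⟨ht, hq⟩
  rw [← h3, mem_filter] at h4
  exact h4.2

/-- the code strings are right -/
theorem LJ.correct {l : ℕ} {A : Oracle} (h : X.good l A) {t : ℕ × List Bool} (ht : t ∈ X.T l)
    {w : List Bool} (hw : w.length = 2 * X.hh t.1 t.2.length) (hF : cd X.R t w ∉ X.F l A) :
    A (cd X.R t w) = true ↔ X.Q t.1 t.2 A := by
  classical
  have h1 : (cd X.R t w).length = l := by
    rw [X.length_cd t w hw]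
    exact X.mem_T.1 ht
  have h2 : IsC X.hh X.R t (cd X.R t w) := ⟨w, hw, rfl⟩
  rw [h _ (X.mem_Y_C A h2 h1), X.answer h ht]
  unfold LJ.adv
  rw [h1, if_neg hF, decide_eq_true_iff]
  constructor
  · rintro ⟨s, h3, h4⟩
    rw [h3.uniq h2] at h4
    exact h4
  · intro h3
    exact ⟨t, h2, h3⟩

/-- the number of wrong windows -/
theorem LJ.count {l : ℕ} {A : Oracle} (h : X.good l A) {t : ℕ × List Bool} (ht : t ∈ X.T l) :
    Nat.card {w : Fin (2 * X.hh t.1 t.2.length) → Bool //
      ¬ (A (code X.R t.1 (true :: pairBits (List.ofFn w) t.2)) = true ↔ X.Q t.1 t.2 A)} ≤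
      (X.F l A).card := by
  classical
  have key2 : ∀ w : Fin (2 * X.hh t.1 t.2.length) → Bool,
      ¬ (A (code X.R t.1 (true :: pairBits (List.ofFn w) t.2)) = true ↔ X.Q t.1 t.2 A) →
      code X.R t.1 (true :: pairBits (List.ofFn w) t.2) ∈ X.F l A := by
    intro w hw
    by_contra hn
    exact hw (X.correct h ht List.length_ofFn hn)
  have hinj : Function.Injective (fun w : {w : Fin (2 * X.hh t.1 t.2.length) → Bool //
      ¬ (A (code X.R t.1 (true :: pairBits (List.ofFn w) t.2)) = true ↔ X.Q t.1 t.2 A)} =>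
      (⟨code X.R t.1 (true :: pairBits (List.ofFn w.1) t.2), key2 w.1 w.2⟩ :
        {y // y ∈ X.F l A})) := by
    intro w w' h
    have h1 : cd X.R t (List.ofFn w.1) = cd X.R t (List.ofFn w'.1) := congrArg Subtype.val h
    exact Subtype.ext (List.ofFn_injective (cd_inj X.R h1).2)
  have hc : Nat.card {y // y ∈ X.F l A} = (X.F l A).card := by
    rw [Nat.card_eq_fintype_card, Fintype.card_coe]
  exact (Nat.card_le_card_of_injective _ hinj).trans hc.le

/-- the number of frozen strings -/
theorem LJ.card_F (l : ℕ) (A : Oracle) : (X.F l A).card ≤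
    ∑ j ∈ range (l + 1), ∑ t ∈ X.T j, X.p t.1 t.2.length := by
  classical
  have h1 : ∀ k, (X.st k A).2.card ≤ ∑ j ∈ range k, ∑ t ∈ X.T j, X.p t.1 t.2.length := by
    intro k
    induction k with
    | zero => simp [LJ.st]
    | succ k ih =>
      rw [sum_range_succ]
      refine (card_union_le _ _).trans (Nat.add_le_add ih ?_)
      exact card_biUnion_le.trans (sum_le_sum fun t _ => X.card_U t _)
  exact h1 (l + 1)

theorem LJ.good_meas (l : ℕ) : MeasurableSet {A | ¬ X.good l A} := by
  classical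
  have h1 : {A | ¬ X.good l A} = ⋃ Z : Finset (List Bool), ({A | X.Y l A = Z} ∩
      ⋃ y ∈ Z, {A : Oracle | A y ≠ X.adv y A}) := by
    ext A
    simp only [Set.mem_ofPred_eq, LJ.good, Set.mem_iUnion, Set.mem_inter_iff]
    constructor
    · intro h
      push Not at h
      obtain ⟨y, hy, hne⟩ := h
      exact ⟨X.Y l A, rfl, y, hy, hne⟩
    · rintro ⟨Z, h2, y, hy, hne⟩ h
      rw [← h2] at hy
      exact hne (h y hy)
  have hpre : ∀ {N : ℕ} {A B : Oracle}, pre N A = pre N B → ∀ z : List Bool, idx z < N →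
      A z = B z := by
    intro N A B hAB z hz
    have h4 := congrFun hAB ⟨idx z, hz⟩
    unfold pre at h4
    simp only [str_idx] at h4
    exact h4
  rw [h1]
  refine MeasurableSet.iUnion fun Z => MeasurableSet.inter ?_ ?_
  · apply Dep.measurable (N := 2 ^ (l + 1))
    intro A B hAB hA
    show X.Y l B = Z
    rw [← X.Y_congr (A := A) (A' := B) fun y hy => hpre hAB y (lt_of_lt_of_le
      (Nat.lt_of_succ_lt (idx_lt y)) (Nat.pow_le_pow_right (by norm_num) (by omega)))]
    exact hA
  · refine MeasurableSet.iUnion fun y => MeasurableSet.iUnion fun _ => ?_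
    apply Dep.measurable (N := 2 ^ (y.length + 1))
    intro A B hAB hA
    have h2 : X.adv y A = X.adv y B := X.adv_loc y A B fun z hz =>
      hpre hAB z (lt_of_lt_of_le (Nat.lt_of_succ_lt (idx_lt z))
        (Nat.pow_le_pow_right (by norm_num) (by omega)))
    have h3 : A y = B y := hpre hAB y (Nat.lt_of_succ_lt (idx_lt y))
    intro h4
    apply hA
    rw [h2, h3, h4]

/-- The coding theorem. -/
theorem LJ.coded {ε : ℕ → ℝ} (hε : ∀ n, 0 ≤ ε n) {b : ℕ → ℝ} (hb0 : ∀ l, 0 ≤ b l)
    (hb : ∀ l m, l ≤ m → 1 - 2 * ε m ≤ b l) {c : ℕ → ℕ} (hc : ∀ l A, (X.Y l A).card ≤ c l)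
    (hsum : Summable fun l => (c l : ℝ) * b l) :
    ∃ μ : Measure Oracle, IsProbabilityMeasure μ ∧ Biased ε μ ∧
      ∀ᵐ A ∂μ, ∀ᶠ l in atTop, X.good l A := by
  set q : List Bool → ℝ := fun z => min 1 (2 * ε z.length) with hq
  have h0 : ∀ z, 0 ≤ q z := fun z => le_min zero_le_one (by have := hε z.length; linarith)
  have h1 : ∀ z, q z ≤ 1 := fun z => min_le_left _ _
  have hqε : ∀ z, q z / 2 ≤ ε z.length := by
    intro z
    have : q z ≤ 2 * ε z.length := min_le_right _ _
    linarith
  have hloc := X.adv_loc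
  have hprob := noiseM_prob h0 h1
  refine ⟨(noiseM q).map (Psi X.adv), Measure.isProbabilityMeasure_map
    (measurable_Psi hloc).aemeasurable, biased_Psi h0 h1 hloc hqε, ?_⟩
  set μ := (noiseM q).map (Psi X.adv) with hμ
  have hbad : ∀ l, μ {A | ¬ X.good l A} ≤ ENNReal.ofReal ((c l : ℝ) * b l) := by
    intro l
    rw [hμ, Measure.map_apply (measurable_Psi hloc) (X.good_meas l)]
    have hsub : Psi X.adv ⁻¹' {A | ¬ X.good l A} ⊆
        {ρ | ∃ y ∈ X.Y l (Psi X.adv ρ), (ρ y).1 = false} := by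
      intro ρ hρ
      by_contra hc
      refine hρ fun y hy => ?_
      have h2 : (ρ y).1 = true := by
        by_contra h2
        exact hc ⟨y, hy, Bool.eq_false_iff.2 h2⟩
      rw [Psi_eq X.adv_loc]
      unfold vl
      rw [if_pos h2]
    refine (measure_mono hsub).trans ?_
    have hagree : ∀ ρ ρ' : Noise, (∀ z ∈ firsts (2 ^ l - 1), ρ z = ρ' z) →
        ∀ y : List Bool, y.length < l → Psi X.adv ρ y = Psi X.adv ρ' y :=
      fun ρ ρ' h2 y hy => Psi_dep_firsts hloc h2 (mem_firsts_len.2 hy)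
    refine cond_bound h0 h1 (firsts (2 ^ l - 1)) (fun ρ => X.Y l (Psi X.adv ρ))
      (fun ρ ρ' h2 => X.Y_congr (hagree ρ ρ' h2)) (fun ρ y hy => ?_)
      (fun ρ y hy => ?_) (fun ρ => hc l _)
    · rw [mem_firsts_len, not_lt]
      exact X.mem_Y_len hy
    · have h3 := hb l y.length (X.mem_Y_len hy)
      rw [hq]
      dsimp only
      rcases min_cases 1 (2 * ε y.length) with h4 | h4
      · rw [h4.1]
        have := hb0 l
        linarith
      · rw [h4.1]
        exact h3
  have hae := ae_finite_setOfPred_mem (μ := μ) (s := fun l => {A | ¬ X.good l A})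
    (ne_top_of_le_ne_top hsum.tsum_ofReal_ne_top (ENNReal.tsum_le_tsum hbad))
  filter_upwards [hae] with A hA
  have h2 : ∀ᶠ l in atTop, l ∉ {l | ¬ X.good l A} := by
    rw [← Nat.cofinite_eq_atTop]
    exact hA.eventually_cofinite_notMem
  filter_upwards [h2] with l hl
  by_contra hc
  exact hl hc

end Pool.Agent.TH755.BL
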