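import Pool.Agent.TH755.BL.Cls
import Pool.Agent.W900.BC.Neg4
import Pool.Agent.W900.BC.Pos
import Pool.Agent.H591R3.PHG.LangSig

/-!
# Linear space against `P` and `NP`, oracles tossed with biased coins
-/

set_option autoImplicit false

namespace Pool.Agent.TH755.BL

open Pool.Agent.NPC Pool.Agent.H620R2.Gauge Pool.Agent.H622R2 Finset MeasureTheory Filter
open Pool.Agent.H622R2.Exp (InNTime Lin good_Lin)
open Pool.Agent.W900 Pool.Agent.W900.BC Pool.Agent.TH93.LN
open Pool.Agent.H591R3.PHG (IsSig lang lang_sig)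
open Pool.Agent.H591R3.PHG.LangSig (length_unpair)

/-- the padded language -/
def padL (q : Polynomial ℕ) (L : Set (List Bool)) : Set (List Bool) :=
  {y | q.eval (unpair y).1.length ≤ (unpair y).2.length ∧ (unpair y).1 ∈ L}

/-- the next action -/
def pact (M : SAlg) (q : Polynomial ℕ) (y : List Bool) : List Bool :=
  if q.eval (unpair (unpair y).1).1.length ≤ (unpair (unpair y).1).2.length then
    M.act (pairBits (unpair (unpair y).1).1 (unpair y).2) else [true]

/-- the new memory -/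
def pnext (M : SAlg) (y : List Bool) : List Bool :=
  M.next (pairBits (unpair (unpair y).1).1 (unpair y).2)

theorem poly_core : Poly (fun y : List Bool => pairBits (unpair (unpair y).1).1 (unpair y).2) :=
  poly_pairBits (Poly.fst (poly_unpair.comp (Poly.fst poly_unpair))) (Poly.snd poly_unpair)

/-- the algorithm for the padded language -/
noncomputable def palg (M : SAlg) (q : Polynomial ℕ) : SAlg where
  act := pact M q
  act_poly := by
    refine polyTime_of_poly_list ?_
    unfold pact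
    refine Poly.ite (Poly.decide_le (UPoly.eval (UPoly.length (Poly.fst (poly_unpair.comp
      (Poly.fst poly_unpair)))) q).toPoly (Poly.length (Poly.snd (poly_unpair.comp
      (Poly.fst poly_unpair))))) ((poly_of_polyTime M.act_poly).comp poly_core)
      (NPC.Poly.const [true])
  next := pnext M
  next_poly := polyTime_of_poly_list ((poly_of_polyTime M.next_poly).comp poly_core)

theorem palg_act {M : SAlg} {q : Polynomial ℕ} {y : List Bool}
    (h : q.eval (unpair y).1.length ≤ (unpair y).2.length) (s : List Bool) :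
    (palg M q).act (pairBits y s) = M.act (pairBits (unpair y).1 s) := by
  show pact M q (pairBits y s) = _
  unfold pact
  rw [unpair_pairBits, if_pos h]

theorem palg_act' {M : SAlg} {q : Polynomial ℕ} {y : List Bool}
    (h : ¬ q.eval (unpair y).1.length ≤ (unpair y).2.length) (s : List Bool) :
    (palg M q).act (pairBits y s) = [true] := by
  show pact M q (pairBits y s) = _
  unfold pact
  rw [unpair_pairBits, if_neg h]

theorem palg_next {M : SAlg} {q : Polynomial ℕ} (y s : List Bool) :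
    (palg M q).next (pairBits y s) = M.next (pairBits (unpair y).1 s) := by
  show pnext M (pairBits y s) = _
  unfold pnext
  rw [unpair_pairBits]

theorem palg_reach {M : SAlg} {q : Polynomial ℕ} {A : Oracle} {y : List Bool}
    (h : q.eval (unpair y).1.length ≤ (unpair y).2.length) (s : List Bool) :
    (palg M q).Reach A y s ↔ M.Reach A (unpair y).1 s := by
  constructor
  · intro hs
    induction hs with
    | start => exact SAlg.Reach.start
    | step _ ha ih =>
      rw [palg_act h] at ha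
      rw [palg_next]
      exact SAlg.Reach.step ih ha
  · intro hs
    induction hs with
    | start => exact SAlg.Reach.start
    | step _ ha ih =>
      rw [← palg_act h] at ha
      rw [← palg_next (q := q)]
      exact SAlg.Reach.step ih ha

/-- padding -/
theorem pad_lin {A : Oracle} {L : Set (List Bool)} (h : IsPSPACE A L) :
    ∃ q : Polynomial ℕ, InLinSpace A (padL q L) := by
  obtain ⟨M, p, hM⟩ := h
  obtain ⟨b, hb⟩ := CC.act_length M p
  refine ⟨p + b, palg M (p + b), 1, fun y => ?_⟩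
  by_cases h : (p + b).eval (unpair y).1.length ≤ (unpair y).2.length
  · obtain ⟨h1, s, z, h2, h3, h4⟩ := hM (unpair y).1
    have hlen := length_unpair y
    rw [Polynomial.eval_add] at h
    refine ⟨fun s hs => ?_, s, z, (palg_reach (by rwa [Polynomial.eval_add]) s).2 h2, ?_, ?_⟩
    · rw [palg_reach (by rwa [Polynomial.eval_add])] at hs
      refine ⟨?_, fun q hq => ?_⟩
      · have := h1 s hs
        omega
      · rw [palg_act (by rwa [Polynomial.eval_add])] at hq
        have h5 := hb (unpair y).1 s (h1 s hs)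
        rw [hq, List.length_cons] at h5
        omega
    · rw [palg_act (by rwa [Polynomial.eval_add])]
      exact h3
    · rw [← h4]
      constructor
      · exact fun h => h.2
      · intro h5
        refine ⟨?_, h5⟩
        rwa [Polynomial.eval_add]
  · refine ⟨fun s hs => ?_, [], [], SAlg.Reach.start, palg_act' h _, ?_⟩
    · have h5 : s = [] := by
        cases hs with
        | start => rfl
        | step _ ha =>
          rw [palg_act' h] at ha
          simp at ha
      subst h5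
      refine ⟨by simp, fun q hq => ?_⟩
      rw [palg_act' h] at hq
      simp at hq
    · constructor
      · rintro ⟨h5, -⟩
        exact absurd h5 h
      · intro h5
        simp at h5

theorem np_of_pad {A : Oracle} {L : Set (List Bool)} {q : Polynomial ℕ} (h : IsNP A (padL q L)) :
    IsNP A L := by
  obtain ⟨V, p, hV, hL⟩ := h
  have h1 : Poly (fun y : List Bool => pairBits (unpair y).1 (pairBits (unpair y).2
      (List.replicate (q.eval (unpair y).2.length) true))) :=
    poly_pairBits (Poly.fst poly_unpair) (poly_pairBits (Poly.snd poly_unpair)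
      (poly_repl (UPoly.eval (UPoly.length (Poly.snd poly_unpair)) q) true))
  refine ⟨_, p.comp (Polynomial.C 2 * Polynomial.X + 1 + q), hV.precomp h1, fun x => ?_⟩
  have h2 : x ∈ L ↔ pairBits x (List.replicate (q.eval x.length) true) ∈ padL q L := by
    unfold padL
    rw [Set.mem_ofPred_eq, unpair_pairBits, List.length_replicate]
    exact ⟨fun h => ⟨le_rfl, h⟩, fun h => h.2⟩
  rw [h2, hL]
  have h3 : (pairBits x (List.replicate (q.eval x.length) true)).length =
      (Polynomial.C 2 * Polynomial.X + 1 + q).eval x.length := by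
    rw [length_pairBits, List.length_replicate]
    simp only [Polynomial.eval_add, Polynomial.eval_mul, Polynomial.eval_C, Polynomial.eval_X,
      Polynomial.eval_one]
  rw [h3, Polynomial.eval_comp]
  simp only [unpair_pairBits]

/-- linear space is not contained in `NP` -/
theorem pos_lin {ε : ℕ → ℝ} (hs : BC.Small ε) {μ : Measure Oracle} [IsProbabilityMeasure μ]
    (hb : Biased ε μ) : ∀ᵐ A ∂μ, ∃ L, InLinSpace A L ∧ ¬ IsNP A L := by
  filter_upwards [pos_part hs μ hb] with A hA
  have h1 : IsPH A (lang 1 A) := by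
    obtain ⟨V, p, h2, h3⟩ := lang_sig A 1
    exact ⟨V, p, 2, h2, h3⟩
  obtain ⟨q, hq⟩ := pad_lin h1.isPSPACE
  refine ⟨_, hq, fun h => hA 1 ?_⟩
  obtain ⟨V, p, h2, h3⟩ := isNP_iff.1 (np_of_pad h)
  exact ⟨V, p, h2, h3⟩

/-- the part of the oracle with the strings of length at most `m` -/
def lcut (m : ℕ) (A : Oracle) : Oracle := fun q => decide (q.length ≤ m) && A q

theorem lcut_congr {m : ℕ} {A A' : Oracle} (h : ∀ q : List Bool, q.length ≤ m → A q = A' q) :
    lcut m A = lcut m A' := by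
  funext q
  unfold lcut
  by_cases hq : q.length ≤ m
  · rw [h q hq]
  · rw [decide_eq_false hq, Bool.false_and, Bool.false_and]

/-- the paddings -/
noncomputable def Rq (e : ℕ) : Polynomial ℕ :=
  Polynomial.C (Nat.unpair (Nat.unpair e).1).2 * (Polynomial.X + 1)

/-- the questions -/
def Vq (Ψ : ℕ → Oracle → List Bool → Prop) (e : ℕ) (A : Oracle) (x : List Bool) : Prop :=
  Ψ (Nat.unpair (Nat.unpair e).1).1 (lcut ((Rq e).eval x.length) A) x

/-- One predicate that looks at shorter strings only describes all languages in `Loc0 Ψ`. -/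
theorem loc_complete (Ψ : ℕ → Oracle → List Bool → Prop) : ∃ S : List Bool → Oracle → Prop, LocP S ∧
    ∀ (A : Oracle) (L : Set (List Bool)), Loc0 Ψ A L → ∀ K : ℕ, ∃ e, K ≤ e ∧
      ∀ x, x ∈ L ↔ S (code Rq e x) A := by
  refine ⟨fun y A => ∃ e x, y = code Rq e x ∧ Vq Ψ e A x, ?_, ?_⟩
  · intro y A A' h
    have key : ∀ A A' : Oracle, (∀ z : List Bool, z.length < y.length → A z = A' z) →
        (∃ e x, y = code Rq e x ∧ Vq Ψ e A x) → ∃ e x, y = code Rq e x ∧ Vq Ψ e A' x := by
      rintro A A' h ⟨e, x, rfl, hx⟩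
      refine ⟨e, x, rfl, ?_⟩
      have hcut : lcut ((Rq e).eval x.length) A = lcut ((Rq e).eval x.length) A' := by
        apply lcut_congr
        intro z hz
        apply h
        have h1 := CC.lt_length_code Rq e x
        omega
      unfold Vq at hx ⊢
      rwa [← hcut]
    exact ⟨key A A' h, key A' A fun z hz => (h z hz).symm⟩
  · rintro A L ⟨e₀, c, hL⟩ K
    refine ⟨Nat.pair (Nat.pair e₀ c) K, Nat.right_le_pair _ _, fun x => ?_⟩
    set e := Nat.pair (Nat.pair e₀ c) K with he
    have h1 : (∃ e' x', code Rq e x = code Rq e' x' ∧ Vq Ψ e' A x') ↔ Vq Ψ e A x := by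
      constructor
      · rintro ⟨e', x', h2, h3⟩
        obtain ⟨h4, h5⟩ := CC.code_inj Rq h2
        rw [h4, h5]
        exact h3
      · intro h2
        exact ⟨e, x, rfl, h2⟩
    change x ∈ L ↔ (∃ e' x', code Rq e x = code Rq e' x' ∧ Vq Ψ e' A x')
    rw [h1, hL x]
    have h2 : (Rq e).eval x.length = c * (x.length + 1) := by
      unfold Rq
      simp only [Polynomial.eval_mul, Polynomial.eval_C, Polynomial.eval_add, Polynomial.eval_X,
        Polynomial.eval_one, he, Nat.unpair_pair]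
    unfold Vq
    rw [h2, he, Nat.unpair_pair, Nat.unpair_pair]
    rfl

/-- a law under which the languages in `Loc0 Ψ` are in `P` -/
theorem neg_loc {ε : ℕ → ℝ} (hε : ∀ n, 0 ≤ ε n) (hs : ¬ BC.Small ε)
    (Ψ : ℕ → Oracle → List Bool → Prop) :
    ∃ μ : Measure Oracle, IsProbabilityMeasure μ ∧ Biased ε μ ∧
      ∀ᵐ A ∂μ, ∀ L, Loc0 Ψ A L → IsP A L := by
  unfold BC.Small at hs
  push Not at hs
  obtain ⟨c, hc⟩ := hs
  obtain ⟨S, hS, hcomp⟩ := loc_complete Ψ
  obtain ⟨μ, h1, h2, h3⟩ := coding S hS hε (c := c) (by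
    filter_upwards [hc] with n hn
    obtain ⟨m, hm1, hm2, hm3⟩ := hn
    exact ⟨m, hm1, hm2, hm3⟩)
  refine ⟨μ, h1, h2, ?_⟩
  filter_upwards [h3] with A hA L hL
  obtain ⟨K, hK⟩ : ∃ K : ℕ, ∀ y ∈ {y | ¬ (dcd c A y = true ↔ S y A)}, y.length < K := by
    obtain ⟨K, hK⟩ := (hA.image List.length).bddAbove
    exact ⟨K + 1, fun y hy => Nat.lt_succ_of_le (hK ⟨y, hy, rfl⟩)⟩
  obtain ⟨e, he, hx⟩ := hcomp A L hL K
  refine ⟨fun x => [dcd c A (code Rq e x)], isFP_dcd c A (CC.poly_code Rq e), fun x => ?_⟩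
  rw [hx x]
  have hgood : dcd c A (code Rq e x) = true ↔ S (code Rq e x) A := by
    by_contra hcon
    have h4 := hK _ hcon
    have h5 : e ≤ (code Rq e x).length := by
      rw [length_code]
      omega
    omega
  rw [← hgood]
  simp

/-- the coins are not controlled with certainty -/
def Open (ε : ℕ → ℝ) : Prop :=
  ∀ δ : ℝ, 0 < δ → ∃ᶠ m : ℕ in atTop, (2 : ℝ) ^ (-(δ * m)) ≤ 1 / 2 - ε m

theorem open_of_quarter {ε : ℕ → ℝ} (h : ∃ᶠ m : ℕ in atTop, ε m ≤ 1 / 4) : Open ε := by
  intro δ hδ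
  have h1 : ∀ᶠ m : ℕ in atTop, 2 / δ ≤ (m : ℝ) :=
    tendsto_natCast_atTop_atTop.eventually (eventually_ge_atTop (2 / δ))
  refine (h.and_eventually h1).mono ?_
  rintro m ⟨h2, h3⟩
  have h4 : (2 : ℝ) ^ (-(δ * m)) ≤ (2 : ℝ) ^ (-(2 : ℝ)) := by
    apply Real.rpow_le_rpow_of_exponent_le (by norm_num)
    rw [div_le_iff₀ hδ] at h3
    linarith
  have h5 : (2 : ℝ) ^ (-(2 : ℝ)) = 1 / 4 := by
    rw [Real.rpow_neg (by norm_num)]
    norm_num
  rw [h5] at h4
  linarith

theorem open_of_small {ε : ℕ → ℝ} (h : BC.Small ε) : Open ε := by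
  refine open_of_quarter (((h 1).and_eventually (eventually_ge_atTop 4)).mono ?_)
  rintro n ⟨h1, h2⟩
  have h3 := h1 n le_rfl (by rw [pow_one])
  refine h3.trans ?_
  rw [pow_one]
  exact one_div_le_one_div_of_le (by norm_num) (by exact_mod_cast h2)

theorem not_small_min {ε : ℕ → ℝ} (h : ¬ BC.Small ε) : ¬ BC.Small (fun n => min (ε n) (1 / 4)) := by
  intro h'
  apply h
  intro c
  refine ((h' c).and_eventually (eventually_ge_atTop 5)).mono ?_
  rintro n ⟨h1, h2⟩ m h3 h4
  have h5 := h1 m h3 h4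
  rcases Nat.eq_zero_or_pos c with rfl | hc
  · rw [pow_zero] at h4
    omega
  · rcases min_le_iff.1 h5 with h6 | h6
    · exact h6
    · exfalso
      have h7 : (5 : ℝ) ≤ (n : ℝ) ^ c := by
        have h8 : 5 ≤ n ^ c := h2.trans (Nat.le_self_pow (by omega) n)
        exact_mod_cast h8
      have h9 : 1 / (n : ℝ) ^ c ≤ 1 / 5 := one_div_le_one_div_of_le (by norm_num) h7
      linarith

theorem biased_mono {ε ε' : ℕ → ℝ} (h : ∀ n, ε' n ≤ ε n) {μ : Measure Oracle}
    (hb : Biased ε' μ) : Biased ε μ := by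
  intro σ b
  refine (hb σ b).trans (mul_le_mul_left (ENNReal.ofReal_le_ofReal ?_) _)
  linarith [h (str σ.length).length]

open Pool.Agent.H620R2.Gauge.X12 in
/-- `NP` is contained in `NE` (as `np_ne` in `TH707/SL/Final`) -/
theorem np_lin {A : Oracle} {L : Set (List Bool)} (h : IsNP A L) : InNTime Lin A L := by
  obtain ⟨V, p, hV, hL⟩ := h
  obtain ⟨r, hrL, hr⟩ := good_Lin.comp (Polynomial.C 0 * (Polynomial.X + 1)) ⟨0, rfl⟩
    (Polynomial.C 2 * p + Polynomial.C 1)
  refine ⟨newV V p, isFP_newV hV p, r, hrL, fun x => ?_⟩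
  rw [hL x]
  constructor
  · rintro ⟨w, hw, hV1⟩
    refine ⟨pairBits w [], ?_, ?_⟩
    · rw [length_pairBits, List.length_nil]
      have h1 := hr x.length
      simp only [Polynomial.eval_add, Polynomial.eval_mul, Polynomial.eval_C,
        Polynomial.eval_X, zero_mul, pow_zero] at h1
      have h2 : p.eval x.length ≤ p.eval (x.length + 1) := NPC.eval_mono _ (Nat.le_succ _)
      omega
    · unfold newV
      rw [cw_pair, cx_pair, if_pos hw]
      exact hV1
  · rintro ⟨w', -, hV1⟩
    unfold newV at hV1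
    split_ifs at hV1 with h1
    · rw [cx_pair] at h1 hV1
      exact ⟨_, h1, hV1⟩

/-- **Linear space against `P` and `NP`.** -/
theorem lin_main (ε : ℕ → ℝ) (hε : ∀ n, 0 ≤ ε n) (Ψ : ℕ → Oracle → List Bool → Prop)
    (C D : Oracle → Set (List Bool) → Prop) (hC₁ : ∀ A L, InLinSpace A L → C A L)
    (hC₂ : ∀ A L, C A L → Loc0 Ψ A L) (hD₁ : ∀ A L, IsP A L → D A L)
    (hD₂ : ∀ A L, D A L → IsNP A L) :
    (BC.Small ε → ∀ μ : Measure Oracle, IsProbabilityMeasure μ → Biased ε μ →
      ∀ᵐ A ∂μ, (∃ L, C A L ∧ ¬ D A L) ∧ ∃ L, D A L ∧ ¬ C A L) ∧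
    (¬ BC.Small ε → ∃ μ : Measure Oracle, IsProbabilityMeasure μ ∧ Biased ε μ ∧
      ∀ᵐ A ∂μ, (∀ L, C A L → D A L) ∧ ∃ L, D A L ∧ ¬ C A L) ∧
    (Open ε → ∀ μ : Measure Oracle, IsProbabilityMeasure μ → Biased ε μ →
      ∀ᵐ A ∂μ, ∃ L, D A L ∧ ¬ C A L) ∧
    (¬ Open ε → ∃ μ : Measure Oracle, IsProbabilityMeasure μ ∧ Biased ε μ ∧
      ∀ᵐ A ∂μ, ∀ L, D A L → C A L) := by
  have key : ∀ ε : ℕ → ℝ, Open ε → ∀ μ : Measure Oracle, IsProbabilityMeasure μ → Biased ε μ →
      ∀ᵐ A ∂μ, ∃ L, D A L ∧ ¬ C A L := by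
    intro ε h μ hμ hb
    filter_upwards [pos h hb (noAdv Ψ)] with A hA
    exact ⟨_, hD₁ A _ hA.1, fun h1 => hA.2 (loc0_sub (hC₂ A _ h1))⟩
  refine ⟨fun h μ hμ hb => ?_, fun h => ?_, key ε, fun h => ?_⟩
  · filter_upwards [pos_lin h hb, key ε (open_of_small h) μ hμ hb] with A h1 h2
    obtain ⟨L, h3, h4⟩ := h1
    exact ⟨⟨L, hC₁ A L h3, fun h5 => h4 (hD₂ A L h5)⟩, h2⟩
  · obtain ⟨μ, h1, h2, h3⟩ := neg_loc (ε := fun n => min (ε n) (1 / 4))
      (fun n => le_min (hε n) (by norm_num)) (not_small_min h) Ψ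
    have h4 := key _ (open_of_quarter (Eventually.frequently (Eventually.of_forall
      fun n => min_le_right (ε n) (1 / 4)))) μ h1 h2
    refine ⟨μ, h1, biased_mono (fun n => min_le_left _ _) h2, ?_⟩
    filter_upwards [h3, h4] with A h5 h6
    exact ⟨fun L hL => hD₁ A L (h5 L (hC₂ A L hL)), h6⟩
  · obtain ⟨μ, h1, h2, h3⟩ := neg hε h
    refine ⟨μ, h1, h2, ?_⟩
    filter_upwards [h3] with A hA L hL
    exact hC₁ A L (hA L (np_lin (hD₂ A L hL))).inLinSpace

end Pool.Agent.TH755.BL
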