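import Pool.Agent.TH755.BE.Chain
import Pool.Agent.TH755.BE.Lang
import Pool.Agent.TH93.LN.InclA

/-!
# A language in `P` which is not given by the strings of linear length
-/

set_option autoImplicit false

namespace Pool.Agent.TH755.BL

open Pool.Agent.NPC Pool.Agent.H620R2.Gauge Finset MeasureTheory Filter
open Pool.Agent.W900.BC Pool.Agent.TH755.BE Pool.Agent.TH93.LN
open Pool.Agent.TH707.EC (keys mem_keys card_keys poly_le_two_pow_div)

/-- `L` is given by one of the functionals `Ψ 0`, `Ψ 1`, ... from the strings of linear length in the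
oracle and subexponential advice: for some `e` and `c`, the functional `Ψ e` decides `L`; on inputs
of length `n` it gets the input, the part of the oracle consisting of the strings of length at most
`c (n + 1)`, and a string `h n` which depends on `n` only and has length `2 ^ o(n)`. -/
def LocalSub (Ψ : ℕ → Oracle → List Bool → Prop) (A : Oracle) (L : Set (List Bool)) : Prop :=
  ∃ (e c : ℕ) (h : ℕ → List Bool),
    (∀ δ : ℝ, 0 < δ → ∀ᶠ n : ℕ in atTop, ((h n).length : ℝ) ≤ 2 ^ (δ * n)) ∧
    ∀ x : List Bool, x ∈ L ↔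
      Ψ e (fun q => decide (q.length ≤ c * (x.length + 1)) && A q) (pairBits x (h x.length))

/-- the question: the input and `k (|x| + 1) + r` zeros, where `k` and `r` are the lengths of the
first two components of the input -/
def qk (x : List Bool) : List Bool :=
  x ++ List.replicate ((unpair x).1.length * (x.length + 1) + (unpair (unpair x).2).1.length) false

/-- the test language -/
def LB (A : Oracle) : Set (List Bool) := {x | A (qk x) = true}

/-- the test language is in `P` -/
theorem LB_p (A : Oracle) : IsP A (LB A) := by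
  have h1 : Poly (fun x : List Bool => [qk x]) := by
    unfold qk
    refine Poly.cons (Poly.append Poly.id (poly_repl (UPoly.add
      (UPoly.mul (UPoly.length (Poly.fst poly_unpair))
      (UPoly.add (UPoly.length Poly.id) (UPoly.const 1)))
      (UPoly.length (Poly.fst (poly_unpair.comp (Poly.snd poly_unpair))))) false))
      (NPC.Poly.const [])
  refine ⟨_, IsFP.tt (Q := fun x : List Bool => [qk x]) (H := fun y => y.2) h1
    (Poly.snd Poly.id), fun x => ?_⟩
  simp [LB]

/-- the inputs -/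
def xi (k r : ℕ) (z : List Bool) : List Bool :=
  pairBits (List.replicate k true) (pairBits (List.replicate r true) z)

theorem length_xi (k r : ℕ) (z : List Bool) : (xi k r z).length = 2 * k + 2 * r + 2 + z.length := by
  unfold xi
  rw [length_pairBits, length_pairBits, List.length_replicate, List.length_replicate]
  ring

theorem xi_inj {k r : ℕ} {z z' : List Bool} (h : xi k r z = xi k r z') : z = z' := by
  unfold xi at h
  have h1 := congrArg unpair h
  rw [unpair_pairBits, unpair_pairBits] at h1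
  have h2 := congrArg unpair (Prod.mk.inj h1).2
  rw [unpair_pairBits, unpair_pairBits] at h2
  exact (Prod.mk.inj h2).2

theorem qk_xi (k r : ℕ) (z : List Bool) :
    qk (xi k r z) = xi k r z ++ List.replicate (k * ((xi k r z).length + 1) + r) false := by
  have h1 : unpair (xi k r z) =
      (List.replicate k true, pairBits (List.replicate r true) z) := by
    unfold xi
    rw [unpair_pairBits]
  unfold qk
  rw [h1]
  simp only
  rw [unpair_pairBits]
  simp only [List.length_replicate]

/-- the functional `ψ` with the advice `g` is right for the inputs of length `n` of the form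
`xi k r z` -/
def Ev (ψ : Oracle → List Bool → Prop) (c k r j n : ℕ) (g : List Bool) : Set Oracle :=
  {A | ∀ z : List Bool, z.length = j → (xi k r z ∈ LB A ↔
    ψ (fun q => decide (q.length ≤ c * (n + 1)) && A q) (pairBits (xi k r z) g))}

theorem ev_le {ε : ℕ → ℝ} {μ : Measure Oracle} [IsProbabilityMeasure μ] (h : Biased ε μ)
    (ψ : Oracle → List Bool → Prop) {c k r j n m : ℕ} (g : List Bool) (hck : c ≤ k)
    (hn : 2 * k + 2 * r + 2 + j = n) (hm : n + k * (n + 1) + r = m) :
    μ (Ev ψ c k r j n g) ≤ ENNReal.ofReal (1 / 2 + ε m) ^ (2 ^ j) := by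
  classical
  set P : Finset ℕ := (keys j).image fun z => idx (qk (xi k r z)) with hP
  have hlx : ∀ z : List Bool, z.length = j → (xi k r z).length = n := by
    intro z hz
    rw [length_xi, hz, hn]
  have hlq : ∀ z : List Bool, z.length = j → (qk (xi k r z)).length = m := by
    intro z hz
    rw [qk_xi, List.length_append, List.length_replicate, hlx z hz, ← hm]
    ring
  have htake : ∀ z : List Bool, z.length = j → (qk (xi k r z)).take n = xi k r z := by
    intro z hz
    rw [qk_xi]
    exact List.take_left' (hlx z hz)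
  have hPc : P.card = 2 ^ j := by
    rw [hP, card_image_of_injOn, card_keys]
    intro z hz z' hz' he
    have h1 := congrArg str he
    simp only [str_idx] at h1
    have h2 := congrArg (List.take n) h1
    rw [htake z (mem_keys.1 hz), htake z' (mem_keys.1 hz')] at h2
    exact xi_inj h2
  have hlP : ∀ i ∈ P, (str i).length = m := by
    intro i hi
    rw [hP, mem_image] at hi
    obtain ⟨z, hz, rfl⟩ := hi
    rw [str_idx]
    exact hlq z (mem_keys.1 hz)
  rw [← hPc]
  refine (measure_mono ?_).trans (chain_le h P (fun i A =>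
    decide (ψ (fun q => decide (q.length ≤ c * (n + 1)) && A q) (pairBits ((str i).take n) g)))
    ?_ ?_)
  · intro A hA i hi
    rw [hP, mem_image] at hi
    obtain ⟨z, hz, rfl⟩ := hi
    have h1 := hA z (mem_keys.1 hz)
    show A (str (idx (qk (xi k r z)))) = decide (ψ _ (pairBits ((str (idx (qk (xi k r z)))).take n) g))
    rw [str_idx, htake z (mem_keys.1 hz), Bool.eq_iff_iff, decide_eq_true_iff, ← h1]
    rfl
  · intro i hi A B hAB
    have h1 : (fun q : List Bool => decide (q.length ≤ c * (n + 1)) && A q) =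
        fun q : List Bool => decide (q.length ≤ c * (n + 1)) && B q := by
      funext q
      by_cases hq : q.length ≤ c * (n + 1)
      · rw [decide_eq_true hq, Bool.true_and, Bool.true_and]
        have h2 : idx q < i := by
          have h3 : c * (n + 1) ≤ k * (n + 1) := Nat.mul_le_mul_right _ hck
          have h2 := idx_lt_of_length (z' := q) (z := str i) (by rw [hlP i hi]; omega)
          rwa [idx_str] at h2
        have h3 := congrFun hAB ⟨idx q, h2⟩
        unfold pre at h3
        simp only [str_idx] at h3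
        exact h3
      · rw [decide_eq_false hq, Bool.false_and, Bool.false_and]
    show decide (ψ _ _) = decide (ψ _ _)
    rw [h1]
  · intro i hi
    rw [hlP i hi]

/-- the functional `ψ` is right with some advice of length at most `s` -/
def Fv (ψ : Oracle → List Bool → Prop) (c k r j n s : ℕ) : Set Oracle :=
  {A | ∃ g : List Bool, g.length ≤ s ∧ A ∈ Ev ψ c k r j n g}

theorem fv_le {ε : ℕ → ℝ} {μ : Measure Oracle} [IsProbabilityMeasure μ] (h : Biased ε μ)
    (ψ : Oracle → List Bool → Prop) {c k r j n m s : ℕ} (hck : c ≤ k)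
    (hn : 2 * k + 2 * r + 2 + j = n) (hm : n + k * (n + 1) + r = m)
    (hT : ((s + 1 + n : ℕ) : ℝ) ≤ (1 / 2 - ε m) * 2 ^ j) :
    μ (Fv ψ c k r j n s) ≤ ENNReal.ofReal ((1 / 2) ^ n) := by
  classical
  have hsub : Fv ψ c k r j n s ⊆ ⋃ g ∈ (range (2 ^ (s + 1))).image str, Ev ψ c k r j n g := by
    rintro A ⟨g, hg, hA⟩
    refine Set.mem_iUnion₂.2 ⟨g, mem_image.2 ⟨idx g, ?_, str_idx _⟩, hA⟩
    rw [mem_range]
    exact lt_of_lt_of_le (Nat.lt_of_succ_lt (idx_lt g))
      (Nat.pow_le_pow_right (by norm_num) (by omega))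
  have h5 : ENNReal.ofReal (1 / 2 + ε m) ^ (2 ^ j) ≤
      ENNReal.ofReal ((1 / 2) ^ (s + 1 + n)) := by
    have h6 : 1 / 2 + ε m ≤ Real.exp (-(1 / 2 - ε m)) := by
      have := Real.one_sub_le_exp_neg (1 / 2 - ε m)
      linarith
    have h7 : ENNReal.ofReal (1 / 2 + ε m) ^ (2 ^ j) ≤
        ENNReal.ofReal (Real.exp (-(1 / 2 - ε m)) ^ (2 ^ j)) := by
      rw [ENNReal.ofReal_pow (Real.exp_pos _).le]
      exact pow_le_pow_left' (ENNReal.ofReal_le_ofReal h6) _
    refine h7.trans (ENNReal.ofReal_le_ofReal ?_)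
    rw [← Real.exp_nat_mul]
    have h8 : Real.exp (-1) ≤ 1 / 2 := by
      rw [Real.exp_neg, one_div]
      apply inv_anti₀ (by norm_num)
      have := Real.add_one_le_exp (1 : ℝ)
      linarith
    have h9 : ((2 ^ j : ℕ) : ℝ) * -(1 / 2 - ε m) ≤ ((s + 1 + n : ℕ) : ℝ) * (-1) := by
      push_cast at hT ⊢
      linarith
    calc Real.exp (((2 ^ j : ℕ) : ℝ) * -(1 / 2 - ε m))
        ≤ Real.exp (((s + 1 + n : ℕ) : ℝ) * (-1)) := Real.exp_le_exp.2 h9
      _ = Real.exp (-1) ^ (s + 1 + n) := Real.exp_nat_mul _ _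
      _ ≤ _ := pow_le_pow_left₀ (Real.exp_pos _).le h8 _
  refine (measure_mono hsub).trans ((measure_biUnion_finset_le _ _).trans
    ((sum_le_sum fun g _ => (ev_le h ψ g hck hn hm).trans h5).trans ?_))
  rw [sum_const, nsmul_eq_mul]
  have h1 : (((range (2 ^ (s + 1))).image str).card : ENNReal) ≤ ENNReal.ofReal (2 ^ (s + 1)) := by
    have h2 : ((range (2 ^ (s + 1))).image str).card ≤ 2 ^ (s + 1) :=
      card_image_le.trans (by rw [card_range])
    have h3 : ENNReal.ofReal (2 ^ (s + 1)) = ((2 ^ (s + 1) : ℕ) : ENNReal) := by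
      rw [← ENNReal.ofReal_natCast]
      push_cast
      rfl
    rw [h3]
    exact_mod_cast h2
  refine (mul_le_mul_left h1 _).trans (le_of_eq ?_)
  rw [← ENNReal.ofReal_mul (by positivity)]
  congr 1
  rw [pow_add (1 / 2 : ℝ), ← mul_assoc, ← mul_pow]
  norm_num

/-- the choice of the parameters -/
theorem params {ε : ℕ → ℝ}
    (hε : ∀ δ : ℝ, 0 < δ → ∃ᶠ m : ℕ in atTop, (2 : ℝ) ^ (-(δ * m)) ≤ 1 / 2 - ε m) (k N : ℕ) :
    ∃ n r j m : ℕ, N ≤ n ∧ 2 * k + 2 * r + 2 + j = n ∧ n + k * (n + 1) + r = m ∧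
      ((2 ^ (n / 2) + 1 + n : ℕ) : ℝ) ≤ (1 / 2 - ε m) * 2 ^ j := by
  have hk0 : (0 : ℝ) < 8 * (k + 1) := by positivity
  have hev : ∀ᶠ m : ℕ in atTop, (k + 1) * (N + 16 * k + 40) + k ≤ m := eventually_ge_atTop _
  obtain ⟨m, hm, hmN⟩ := ((hε (1 / (8 * (k + 1))) (by positivity)).and_eventually hev).exists
  set n := (m - k) / (k + 1) with hn
  set r := (m - k) % (k + 1) with hr
  have h1 : (k + 1) * n + r = m - k := Nat.div_add_mod _ _
  have h2 : r < k + 1 := Nat.mod_lt _ (by omega)
  have h3 : N + 16 * k + 40 ≤ n := by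
    rw [hn, Nat.le_div_iff_mul_le (by omega)]
    have h4 : (N + 16 * k + 40) * (k + 1) = (k + 1) * (N + 16 * k + 40) := Nat.mul_comm _ _
    omega
  refine ⟨n, r, n - (2 * k + 2 * r + 2), m, by omega, by omega, ?_, ?_⟩
  · have h4 : n + k * (n + 1) + r = (k + 1) * n + r + k := by ring
    rw [h4]
    omega
  · set j := n - (2 * k + 2 * r + 2) with hj
    have hj2 : n ≤ j + (4 * k + 2) := by omega
    have hmle : m ≤ (k + 1) * (n + 2) := by
      have h4 : (k + 1) * (n + 2) = (k + 1) * n + 2 * (k + 1) := by ring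
      omega
    have h5 : (2 : ℝ) ^ (((n / 2 + n / 8 : ℕ) : ℝ)) ≤ (1 / 2 - ε m) * 2 ^ j := by
      calc (2 : ℝ) ^ (((n / 2 + n / 8 : ℕ) : ℝ))
          ≤ (2 : ℝ) ^ (-(1 / (8 * ((k : ℝ) + 1)) * m) + j) := by
            apply Real.rpow_le_rpow_of_exponent_le (by norm_num)
            have h6 : 1 / (8 * ((k : ℝ) + 1)) * m ≤ ((n : ℝ) + 2) / 8 := by
              have h7 : (m : ℝ) ≤ ((k : ℝ) + 1) * (n + 2) := by exact_mod_cast hmle
              rw [one_div, inv_mul_eq_div, div_le_div_iff₀ hk0 (by norm_num)]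
              nlinarith
            have h8 : (n : ℝ) ≤ j + (4 * k + 2) := by exact_mod_cast hj2
            have h9 : ((n / 2 : ℕ) : ℝ) ≤ n / 2 := Nat.cast_div_le
            have h10 : ((n / 8 : ℕ) : ℝ) ≤ n / 8 := Nat.cast_div_le
            have h11 : (16 : ℝ) * k + 40 ≤ n := by
              have : 16 * k + 40 ≤ n := by omega
              exact_mod_cast this
            push_cast
            linarith
        _ = (2 : ℝ) ^ (-(1 / (8 * ((k : ℝ) + 1)) * m)) * 2 ^ j := by
            rw [Real.rpow_add (by norm_num), Real.rpow_natCast]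
        _ ≤ _ := mul_le_mul_of_nonneg_right hm (by positivity)
    refine le_trans ?_ h5
    rw [Real.rpow_natCast]
    have h6 : 2 ^ (n / 2) + 1 + n ≤ 2 ^ (n / 2 + n / 8) := by
      have h7 : n + 1 ≤ 2 ^ (n / 2) := by
        have h8 : ∀ i, 20 ≤ i → 2 * i + 2 ≤ 2 ^ i := by
          intro i hi
          induction i, hi using Nat.le_induction with
          | base => norm_num
          | succ i hi ih =>
            rw [pow_succ]
            omega
        have := h8 (n / 2) (by omega)
        omega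
      have h9 : 2 ^ (n / 2 + 1) ≤ 2 ^ (n / 2 + n / 8) :=
        Nat.pow_le_pow_right (by norm_num) (by omega)
      rw [pow_succ] at h9
      omega
    exact_mod_cast h6

/-- the oracles for which the functional number `p.1` is right for the test language -/
def Easy (Ψ : ℕ → Oracle → List Bool → Prop) (p : ℕ × ℕ) : Set Oracle :=
  {A | ∃ h : ℕ → List Bool,
    (∀ δ : ℝ, 0 < δ → ∀ᶠ n : ℕ in atTop, ((h n).length : ℝ) ≤ 2 ^ (δ * n)) ∧
    ∀ x : List Bool, x ∈ LB A ↔
      Ψ p.1 (fun q => decide (q.length ≤ p.2 * (x.length + 1)) && A q) (pairBits x (h x.length))}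

theorem easy_null {ε : ℕ → ℝ}
    (hε : ∀ δ : ℝ, 0 < δ → ∃ᶠ m : ℕ in atTop, (2 : ℝ) ^ (-(δ * m)) ≤ 1 / 2 - ε m)
    {μ : Measure Oracle} [IsProbabilityMeasure μ] (h : Biased ε μ)
    (Ψ : ℕ → Oracle → List Bool → Prop) (p : ℕ × ℕ) : μ (Easy Ψ p) = 0 := by
  choose n r j m h1 h2 h3 h4 using params hε p.2
  set S : ℕ → Set Oracle := fun M => ⋂ N ≥ M, Fv (Ψ p.1) p.2 p.2 (r N) (j N) (n N) (2 ^ (n N / 2))
    with hS
  have hsub : Easy Ψ p ⊆ ⋃ M, S M := by
    rintro A ⟨g, hg, hA⟩
    have hg4 := hg (1 / 4) (by norm_num)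
    obtain ⟨n₀, hn₀⟩ := eventually_atTop.1 (hg4.and (eventually_ge_atTop 4))
    refine Set.mem_iUnion.2 ⟨n₀, Set.mem_iInter₂.2 fun N hN => ⟨g (n N), ?_, fun z hz => ?_⟩⟩
    · have h5 := hn₀ (n N) ((ge_iff_le.1 hN).trans (h1 N))
      have h6 : ((g (n N)).length : ℝ) ≤ ((2 ^ (n N / 2) : ℕ) : ℝ) := by
        refine h5.1.trans ?_
        push_cast
        rw [← Real.rpow_natCast]
        apply Real.rpow_le_rpow_of_exponent_le (by norm_num)
        have h7 : n N ≤ 4 * (n N / 2) := by omega
        have h8 : ((n N : ℕ) : ℝ) ≤ 4 * ((n N / 2 : ℕ) : ℝ) := by exact_mod_cast h7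
        linarith
      exact_mod_cast h6
    · have h5 := hA (xi p.2 (r N) z)
      have h6 : (xi p.2 (r N) z).length = n N := by rw [length_xi, hz, h2]
      rw [h6] at h5
      exact h5
  have hS0 : ∀ M, μ (S M) = 0 := by
    intro M
    have hle : ∀ N ≥ M, μ (S M) ≤ ENNReal.ofReal ((1 / 2) ^ N) := by
      intro N hN
      refine (measure_mono (Set.iInter₂_subset N hN)).trans ((fv_le h (Ψ p.1) (s := 2 ^ (n N / 2))
        le_rfl (h2 N) (h3 N) (h4 N)).trans (ENNReal.ofReal_le_ofReal ?_))
      exact pow_le_pow_of_le_one (by norm_num) (by norm_num) (h1 N)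
    have ht : Tendsto (fun N : ℕ => ENNReal.ofReal ((1 / 2) ^ N)) atTop (nhds 0) := by
      have := ENNReal.tendsto_ofReal (tendsto_pow_atTop_nhds_zero_of_lt_one
        (show (0 : ℝ) ≤ 1 / 2 by norm_num) (by norm_num))
      rwa [ENNReal.ofReal_zero] at this
    exact le_antisymm (ge_of_tendsto ht (eventually_atTop.2 ⟨M, hle⟩)) zero_le
  refine measure_mono_null hsub (measure_iUnion_null hS0)

/-- **The positive half.** -/
theorem pos {ε : ℕ → ℝ}
    (hε : ∀ δ : ℝ, 0 < δ → ∃ᶠ m : ℕ in atTop, (2 : ℝ) ^ (-(δ * m)) ≤ 1 / 2 - ε m)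
    {μ : Measure Oracle} [IsProbabilityMeasure μ] (h : Biased ε μ)
    (Ψ : ℕ → Oracle → List Bool → Prop) : ∀ᵐ A ∂μ, IsP A (LB A) ∧ ¬ LocalSub Ψ A (LB A) := by
  have h1 : ∀ᵐ A ∂μ, ∀ p : ℕ × ℕ, A ∉ Easy Ψ p :=
    ae_all_iff.2 fun p => by
      rw [ae_iff]
      simp only [not_not]
      exact easy_null hε h Ψ p
  filter_upwards [h1] with A hA
  refine ⟨LB_p A, ?_⟩
  rintro ⟨e, c, g, h2, h3⟩
  exact hA (e, c) ⟨g, h2, h3⟩

end Pool.Agent.TH755.BL
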